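import Mathlib
import Pool.Agent.Run7.h733.CP.Main

/-!
Critical bond percolation on the half-plane `ℤ × ℕ`, with `n` marked boundary points which cut the
boundary into `n + 1` arcs. We study the law of the random pattern which tells which pairs of
non-adjacent arcs are joined by an open path, as a function of the marks. It determines the law of
the connections of the interfaces (exploration paths) which start from the marks, for all boundary
conditions which are wired on some arcs and free on the others, and which boundary arcs these paths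
visit; the law of the boundary point at which the exploration path from `x₀` swallows `x₁` is a
special case.

If the marks are at distances at least `m`, then the first differences in the marks are `O(1/m)` and
all the second differences are `O(1/m²)`. So all subsequential scaling limits are `C^(1,1)`
functions of the marks, and the rescaled differences converge to their derivatives (local limit
theorem); the limit points at fixed marks form an interval.

Proof. If the pattern changes when a mark is moved across a vertex `w`, then `w` is joined to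
distance `m` and not joined to any other boundary vertex within distance `m` on one of its sides.
The vertices with this property in a segment of length `m` are in different crossing clusters of a
half box of size `m`, and so their mean number is bounded; the probability for one vertex is
`O(1/m)`. For the mixed second differences one has two such events in disjoint boxes. The pure
second differences are sums of mixed ones by the invariance under translations.
-/

set_option autoImplicit false

namespace Pool.Agent.Results.MP_fe58d8_pr.ConnectionPatternsRegular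

open MeasureTheory Filter Topology

/-- The square lattice: two points of `ℤ²` are adjacent when they differ by one in exactly one
coordinate. -/
def Z2 : SimpleGraph (ℤ × ℤ) where
  Adj u v := |u.1 - v.1| + |u.2 - v.2| = 1
  symm := ⟨fun u v h => by rw [abs_sub_comm v.1, abs_sub_comm v.2]; exact h⟩
  loopless := ⟨fun u h => by simp at h⟩

/-- Critical bond percolation: every edge of the square lattice is open (`true`) with
probability `1/2`, independently of the other edges. -/
noncomputable def crit : Measure (Z2.edgeSet → Bool) :=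
  Measure.infinitePi (fun _ => ProbabilityTheory.bernoulliMeasure true false
    ⟨1/2, by norm_num, by norm_num⟩)

/-- The graph of the open edges of the half-plane `ℤ × ℕ`. -/
def upper (ω : Z2.edgeSet → Bool) : SimpleGraph (ℤ × ℤ) :=
  SimpleGraph.fromEdgeSet {e | (∃ h : e ∈ Z2.edgeSet, ω ⟨e, h⟩ = true) ∧ ∀ v ∈ e, 0 ≤ v.2}

/-- The boundary vertices `(a, 0)` and `(b, 0)` are joined by an open path in the half-plane. -/
def joined (ω : Z2.edgeSet → Bool) (a b : ℤ) : Prop := (upper ω).Reachable (a, 0) (b, 0)

variable {n : ℕ}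

/-- The marks `x 0 < … < x (n - 1)` cut the boundary `ℤ` into the arcs `0, …, n`; this is the number
of the arc which contains `a`, that is, the number of marks `≤ a`. -/
def arc (x : Fin n → ℤ) (a : ℤ) : Fin (n + 1) :=
  ⟨(Finset.univ.filter fun j => x j ≤ a).card, by
    have h := Finset.card_le_univ (Finset.univ.filter fun j => x j ≤ a)
    rw [Fintype.card_fin] at h
    omega⟩

open Classical in
/-- The connection pattern: the pairs of arcs, neither equal nor adjacent, which are joined by an open
path in the half-plane. -/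
noncomputable def pattern (x : Fin n → ℤ) (ω : Z2.edgeSet → Bool) :
    Finset (Fin (n + 1) × Fin (n + 1)) :=
  Finset.univ.filter fun p => ((p.1 : ℕ) + 2 ≤ p.2 ∨ (p.2 : ℕ) + 2 ≤ p.1) ∧
    ∃ a b, arc x a = p.1 ∧ arc x b = p.2 ∧ joined ω a b

/-- The law of the pattern: the probability that it belongs to `A`. -/
noncomputable def prob (x : Fin n → ℤ) (A : Set (Finset (Fin (n + 1) × Fin (n + 1)))) : ℝ :=
  crit.real {ω | pattern x ω ∈ A}

/-- The mark `x i` is moved to `x i + 1`. -/
def move (x : Fin n → ℤ) (i : Fin n) : Fin n → ℤ := Function.update x i (x i + 1)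

/-- The marks are increasing and at distance at least `m` from each other. -/
def Apart (m : ℕ) (x : Fin n → ℤ) : Prop := ∀ i j, i < j → x i + m ≤ x j

/-- The lattice marks at scale `N`. -/
noncomputable def lat (N : ℕ) (u : Fin n → ℝ) : Fin n → ℤ := fun i => ⌊(N : ℝ) * u i⌋

/-- The probability that `b` is the first boundary vertex to the right of `x₁` (`b ≥ x₁`) which is
joined to the half-line `(-∞, x₀)`; that is, `b` is the first vertex of `[x₁, ∞)` visited by the
exploration path which starts at `x₀` and has the wired boundary `(-∞, x₀)` on its left. -/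
noncomputable def hitProb (x₀ x₁ b : ℤ) : ℝ :=
  crit.real {ω | (∃ a < x₀, joined ω a b) ∧ ∀ c, x₁ ≤ c → c < b → ∀ a < x₀, ¬ joined ω a c}

open Pool.Agent.Run7.h733 in
theorem joined_iff (ω : Z2.edgeSet → Bool) (a b : ℤ) : joined ω a b ↔ CP.J ω a b :=
  CP.upper_J ω a b

open Pool.Agent.Run7.h733 in
theorem arc_eq (x : Fin n → ℤ) (a : ℤ) : arc x a = CP.arc x a := by
  apply Fin.ext
  show (Finset.univ.filter fun j => x j ≤ a).card = _
  unfold CP.arc
  congr 2

open Pool.Agent.Run7.h733 in
theorem pattern_eq (x : Fin n → ℤ) (ω : Z2.edgeSet → Bool) : pattern x ω = CP.pat x ω := by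
  classical
  ext p
  rw [CP.mem_pat]
  unfold pattern
  rw [Finset.mem_filter]
  have h : ∀ a b, joined ω a b ↔ CP.J ω a b := joined_iff ω
  simp only [Finset.mem_univ, true_and, arc_eq, h]
  exact Iff.rfl

open Pool.Agent.Run7.h733 in
theorem prob_eq (x : Fin n → ℤ) (A : Set (Finset (Fin (n + 1) × Fin (n + 1)))) :
    prob x A = CP.prob x A := by
  unfold prob CP.prob
  have h : {ω | pattern x ω ∈ A} = {ω | CP.pat x ω ∈ A} := by
    ext ω
    show pattern x ω ∈ A ↔ CP.pat x ω ∈ A
    rw [pattern_eq]
  rw [h]
  rfl

open Pool.Agent.Run7.h733 in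
theorem hit_eq (x₀ x₁ b : ℤ) : hitProb x₀ x₁ b = CP.mu.real {ω | CP.hits x₀ x₁ b ω} := by
  unfold hitProb
  have h : {ω | (∃ a < x₀, joined ω a b) ∧ ∀ c, x₁ ≤ c → c < b → ∀ a < x₀, ¬ joined ω a c} =
      {ω | CP.hits x₀ x₁ b ω} := by
    ext ω
    show ((∃ a < x₀, joined ω a b) ∧ ∀ c, x₁ ≤ c → c < b → ∀ a < x₀, ¬ joined ω a c) ↔
      CP.hits x₀ x₁ b ω
    unfold CP.hits
    simp only [joined_iff]
  rw [h]
  rfl

/-- **Regularity of the connection patterns.** There is an absolute constant `C` such that:

(1) if the marks are at distances at least `m`, then for all sets `A` of patterns the first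
differences of the probability of `A` in the marks are at most `C / m`, the mixed second differences
are at most `C / m²`, and the pure ones at most `n C / m²`;

(2) the hitting probabilities are the first differences of a pattern probability with three marks;
if `x₀ + m ≤ x₁` and `x₁ + m ≤ b` then they are at most `C / m`, and those of neighbouring
boundary vertices differ by at most `C / m²`;

(3) every sequence of scales has a subsequence along which all the pattern probabilities, for all
numbers of marks and all positions of the marks, converge;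

(4) whenever the probabilities of `A` at the scales `N k → ∞` converge, for all positions of the
marks, to a function `f`, then `f` is differentiable on the set of the increasing `u`, the rescaled
differences `N k (prob (move x i) A - prob x A)`, `x = lat (N k) u`, converge to its partial
derivatives `D u i`, and if the `u i` are at distances at least `g`, then `|D u i| ≤ C / g`,
`|D v i - D u i| ≤ C n² ‖v - u‖ / g²` and `|f v - f u - ∑ (v i - u i) D u i| ≤ C n³ ‖v - u‖² / g²`
for all `v` with `‖v - u‖ ≤ g / 32`, with the maximum norm;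

(5) the probabilities at the scales `N` and `N + 1` become close to each other, and their limit
points as `N → ∞` form an interval. -/
theorem result : ∃ C : ℝ, 0 < C ∧
    (∀ (n : ℕ) (A : Set (Finset (Fin (n + 1) × Fin (n + 1)))) (m : ℕ) (x : Fin n → ℤ), 1 ≤ m →
      Apart m x →
      (∀ i, |prob (move x i) A - prob x A| ≤ C / m) ∧
      (∀ i j, i ≠ j → |prob (move (move x i) j) A - prob (move x i) A - prob (move x j) A +
        prob x A| ≤ C / (m : ℝ) ^ 2) ∧
      ∀ i, |prob (move (move x i) i) A - 2 * prob (move x i) A + prob x A| ≤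
        n * C / (m : ℝ) ^ 2) ∧
    (∀ x₀ x₁ b : ℤ, x₀ ≤ x₁ → x₁ ≤ b →
      hitProb x₀ x₁ b = prob (move ![x₀, x₁, b] 2) {P | ((0 : Fin 4), (2 : Fin 4)) ∈ P} -
        prob ![x₀, x₁, b] {P | ((0 : Fin 4), (2 : Fin 4)) ∈ P} ∧
      ∀ m : ℕ, 1 ≤ m → x₀ + m ≤ x₁ → x₁ + m ≤ b →
        hitProb x₀ x₁ b ≤ C / m ∧
        |hitProb x₀ x₁ (b + 1) - hitProb x₀ x₁ b| ≤ C / (m : ℝ) ^ 2) ∧
    (∀ N : ℕ → ℕ, Tendsto N atTop atTop → ∃ φ : ℕ → ℕ, StrictMono φ ∧
      ∀ (n : ℕ) (A : Set (Finset (Fin (n + 1) × Fin (n + 1)))) (u : Fin n → ℝ), StrictMono u →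
        ∃ l, Tendsto (fun k => prob (lat (N (φ k)) u) A) atTop (𝓝 l)) ∧
    (∀ N : ℕ → ℕ, Tendsto N atTop atTop →
      ∀ (n : ℕ) (A : Set (Finset (Fin (n + 1) × Fin (n + 1)))) (f : (Fin n → ℝ) → ℝ),
      (∀ u, StrictMono u → Tendsto (fun k => prob (lat (N k) u) A) atTop (𝓝 (f u))) →
      ∃ D : (Fin n → ℝ) → Fin n → ℝ,
        (∀ u, StrictMono u →
          HasFDerivAt f (∑ i, D u i •
            (ContinuousLinearMap.proj (R := ℝ) (φ := fun _ : Fin n => ℝ) i)) u ∧
          ∀ i, Tendsto (fun k => (N k : ℝ) *
            (prob (move (lat (N k) u) i) A - prob (lat (N k) u) A)) atTop (𝓝 (D u i))) ∧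
        ∀ (g : ℝ) (u : Fin n → ℝ), 0 < g → (∀ i j, i < j → u i + g ≤ u j) →
          (∀ i, |D u i| ≤ C / g) ∧
          ∀ v : Fin n → ℝ, ‖v - u‖ ≤ g / 32 →
            (∀ i, |D v i - D u i| ≤ C * n ^ 2 / g ^ 2 * ‖v - u‖) ∧
            |f v - f u - ∑ i, (v i - u i) * D u i| ≤ C * n ^ 3 / g ^ 2 * ‖v - u‖ ^ 2) ∧
    (∀ (n : ℕ) (A : Set (Finset (Fin (n + 1) × Fin (n + 1)))) (u : Fin n → ℝ), StrictMono u →
      Tendsto (fun N : ℕ => prob (lat (N + 1) u) A - prob (lat N u) A) atTop (𝓝 0) ∧
      ∀ p q c : ℝ, MapClusterPt p atTop (fun N : ℕ => prob (lat N u) A) →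
        MapClusterPt q atTop (fun N : ℕ => prob (lat N u) A) → p ≤ c → c ≤ q →
        MapClusterPt c atTop (fun N : ℕ => prob (lat N u) A)) := by
  obtain ⟨K, hK, hreg, hdiff⟩ := Pool.Agent.Run7.h733.CP.reg_prob
  obtain ⟨K', hK', hhit⟩ := Pool.Agent.Run7.h733.CP.hit_law
  have hCK : K ≤ 64 * K + K' := by linarith
  refine ⟨64 * K + K', by linarith, ?_, ?_, ?_, ?_, ?_⟩
  · intro n A m x hm hx
    have hm0 : (0:ℝ) < m := by exact_mod_cast hm
    obtain ⟨h1, h2, h3⟩ := hdiff n A m x hm hx
    simp only [prob_eq]
    refine ⟨fun i => (h1 i).trans (div_le_div_of_nonneg_right hCK hm0.le),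
      fun i j hij => (h2 i j hij).trans (div_le_div_of_nonneg_right hCK (by positivity)),
      fun i => ?_⟩
    have h4 := h3 i
    have e : Pool.Agent.Run7.h733.CP.prob (move (move x i) i) A -
        2 * Pool.Agent.Run7.h733.CP.prob (move x i) A + Pool.Agent.Run7.h733.CP.prob x A =
        Pool.Agent.Run7.h733.CP.prob (move (move x i) i) A -
        Pool.Agent.Run7.h733.CP.prob (move x i) A - Pool.Agent.Run7.h733.CP.prob (move x i) A +
        Pool.Agent.Run7.h733.CP.prob x A := by ring
    rw [e]
    refine h4.trans (div_le_div_of_nonneg_right ?_ (by positivity))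
    exact mul_le_mul_of_nonneg_left hCK (Nat.cast_nonneg n)
  · intro x₀ x₁ b h1 h2
    simp only [prob_eq, hit_eq]
    refine ⟨Pool.Agent.Run7.h733.CP.hits_prob h1 h2, ?_⟩
    intro m hm h3 h4
    have hm0 : (0:ℝ) < m := by exact_mod_cast hm
    obtain ⟨q1, q2⟩ := hhit x₀ x₁ b m hm h3 h4
    have hCK' : K' ≤ 64 * K + K' := by linarith
    exact ⟨q1.trans (div_le_div_of_nonneg_right hCK' hm0.le),
      q2.trans (div_le_div_of_nonneg_right hCK' (by positivity))⟩
  · intro N hN
    obtain ⟨φ, hφ, h⟩ := Pool.Agent.Run7.h733.CP.compact_all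
      (T := Σ n : ℕ, Set (Finset (Fin (n + 1) × Fin (n + 1)))) (nn := fun t => t.1)
      (P := fun t x => Pool.Agent.Run7.h733.CP.prob x t.2) (K := fun _ => K)
      (L := fun t => t.1 * K) (fun t => hreg t.1 t.2) hN
    refine ⟨φ, hφ, fun n A u hu => ?_⟩
    simp only [prob_eq]
    exact h ⟨n, A⟩ u hu
  · intro N hN n A f hf
    simp only [prob_eq] at hf ⊢
    obtain ⟨D, hD, hD2⟩ := Pool.Agent.Run7.h733.CP.limit_reg (hreg n A) hN hf
    have hn : (0:ℝ) ≤ n := Nat.cast_nonneg n
    refine ⟨D, fun u hu => ⟨?_, fun i => hD u hu i⟩, ?_⟩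
    · obtain ⟨g, hg, hgu⟩ := Pool.Agent.Run7.h733.CP.exists_gap hu
      apply Pool.Agent.Run7.h733.CP.hasFDeriv_of_quad (c := 64 * (n * K) * n ^ 2 / g ^ 2)
        (r := g / 32) (by positivity)
      intro v hv
      exact ((hD2 g u hg hgu).2 v ‖v - u‖ (norm_nonneg _) hv
        Pool.Agent.Run7.h733.CP.norm_le_all).2
    · intro g u hg hgu
      obtain ⟨h1, h2⟩ := hD2 g u hg hgu
      refine ⟨fun i => (h1 i).trans (div_le_div_of_nonneg_right (by linarith) hg.le), ?_⟩
      intro v hv
      obtain ⟨h3, h4⟩ := h2 v ‖v - u‖ (norm_nonneg _) hv Pool.Agent.Run7.h733.CP.norm_le_all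
      constructor
      · intro i
        refine (h3 i).trans (mul_le_mul_of_nonneg_right ?_ (norm_nonneg _))
        apply div_le_div_of_nonneg_right _ (by positivity)
        nlinarith [mul_nonneg hn hn]
      · refine h4.trans (mul_le_mul_of_nonneg_right ?_ (by positivity))
        apply div_le_div_of_nonneg_right _ (by positivity)
        nlinarith [mul_nonneg hn (mul_nonneg hn hn)]
  · intro n A u hu
    simp only [prob_eq]
    have h := Pool.Agent.Run7.h733.CP.slow (hreg n A) hu
    exact ⟨h, fun p q c hp hq h1 h2 => Pool.Agent.Run7.h733.CP.cluster_interval h hp hq h1 h2⟩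

end Pool.Agent.Results.MP_fe58d8_pr.ConnectionPatternsRegular
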